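import Pool.Agent.TH446.HN.Crit

/-! Strong immersions of complete graphs, with paths of length at most two, in graphs in which
every vertex has at most `D` non-neighbours. -/

set_option autoImplicit false

namespace Pool.Agent.TH446.IM

open Finset

/-- Strong immersion of `K_r` with paths of length at most two. -/
def ShortImm {V : Type} (G : SimpleGraph V) (r : ℕ) : Prop :=
  ∃ f : Fin r ↪ V, ∃ p : ∀ i j : Fin r, G.Walk (f i) (f j),
    (∀ i j : Fin r, i < j → (p i j).IsPath ∧ (p i j).length ≤ 2 ∧
      ∀ x ∈ (p i j).support, x = f i ∨ x = f j ∨ ∀ k, x ≠ f k) ∧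
    ∀ i j k l : Fin r, i < j → k < l → (i ≠ k ∨ j ≠ l) →
      ∀ e ∈ (p i j).edges, e ∉ (p k l).edges

/-- The non-neighbours of `x`. -/
noncomputable def NN {V : Type} [Fintype V] (G : SimpleGraph V) (x : V) : Finset V :=
  letI := Classical.decPred (fun y => Gᶜ.Adj x y)
  univ.filter (fun y => Gᶜ.Adj x y)

theorem mem_NN {V : Type} [Fintype V] (G : SimpleGraph V) (x y : V) :
    y ∈ NN G x ↔ Gᶜ.Adj x y := by
  unfold NN
  simp

theorem card_NN {V : Type} [Fintype V] (G : SimpleGraph V) (x : V) :
    (NN G x).card = Pool.Agent.W292.RG.ndeg G x := by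
  unfold Pool.Agent.W292.RG.ndeg
  rw [← Set.ncard_coe_finset]
  congr 1
  ext y
  rw [mem_coe, mem_NN]
  rfl

open Classical in
theorem load {V : Type} [Fintype V] (G : SimpleGraph V) (T : Finset V) (D : ℕ)
    (hD : ∀ x ∈ T, (NN G x).card ≤ D) (S : Finset (Sym2 V))
    (hS : ∀ e ∈ S, ∃ a b, e = s(a, b) ∧ a ∈ T ∧ b ∈ T ∧ Gᶜ.Adj a b) (a b : V) (ha : a ∈ T)
    (hb : b ∈ T)
    (hab : Gᶜ.Adj a b) (he : s(a, b) ∉ S) :
    (S.filter (fun e => a ∈ e)).card + ((NN G a).filter (fun y => y ∉ T)).card + 1 ≤ D := by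
  have h1 : S.filter (fun e => a ∈ e) ⊆
      (((NN G a).filter (fun y => y ∈ T)).erase b).image (fun y => s(a, y)) := by
    intro e he'
    rw [mem_filter] at he'
    obtain ⟨x, y, rfl, hx, hy, hxy⟩ := hS e he'.1
    rw [mem_image]
    rcases Sym2.mem_iff.1 he'.2 with h | h
    · subst h
      refine ⟨y, ?_, rfl⟩
      rw [mem_erase, mem_filter, mem_NN]
      refine ⟨?_, hxy, hy⟩
      rintro rfl
      exact he he'.1
    · subst h
      refine ⟨x, ?_, Sym2.eq_swap⟩
      rw [mem_erase, mem_filter, mem_NN]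
      refine ⟨?_, hxy.symm, hx⟩
      rintro rfl
      apply he
      rw [Sym2.eq_swap]
      exact he'.1
  have h2 := (card_le_card h1).trans card_image_le
  have hbm : b ∈ (NN G a).filter (fun y => y ∈ T) := by
    rw [mem_filter, mem_NN]
    exact ⟨hab, hb⟩
  rw [card_erase_of_mem hbm] at h2
  have h3 : 0 < ((NN G a).filter (fun y => y ∈ T)).card := card_pos.2 ⟨b, hbm⟩
  have h4 := Finset.card_filter_add_card_filter_not (s := NN G a) (fun y => y ∈ T)
  have h5 := hD a ha
  omega

open Classical in
/-- Greedy list edge colouring of the missing edges inside `T` by vertices outside `T`. -/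
theorem colour {V : Type} [Fintype V] (G : SimpleGraph V) (T : Finset V) (D : ℕ)
    (hD : ∀ x ∈ T, (NN G x).card ≤ D) (hM : 2 * D ≤ (Tᶜ : Finset V).card + 1) :
    ∀ S : Finset (Sym2 V),
    (∀ e ∈ S, ∃ a b, e = s(a, b) ∧ a ∈ T ∧ b ∈ T ∧ Gᶜ.Adj a b) →
    ∃ c : Sym2 V → V, (∀ e ∈ S, c e ∉ T ∧ ∀ a ∈ e, G.Adj a (c e)) ∧
      ∀ e ∈ S, ∀ e' ∈ S, e ≠ e' → ∀ a, a ∈ e → a ∈ e' → c e ≠ c e' := by
  intro S
  induction S using Finset.induction_on with
  | empty =>
    intro _
    exact ⟨fun e => (Quot.out e).1, by simp, by simp⟩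
  | insert e0 S he0 ih =>
    intro hS
    obtain ⟨c, hc1, hc2⟩ := ih (fun e he => hS e (mem_insert_of_mem he))
    obtain ⟨a, b, hab0, ha, hb, hab⟩ := hS e0 (mem_insert_self _ _)
    have hS' : ∀ e ∈ S, ∃ a b, e = s(a, b) ∧ a ∈ T ∧ b ∈ T ∧ Gᶜ.Adj a b :=
      fun e he => hS e (mem_insert_of_mem he)
    have la := load G T D hD S hS' a b ha hb hab (by rw [← hab0]; exact he0)
    have lb := load G T D hD S hS' b a hb ha hab.symm (by rw [Sym2.eq_swap, ← hab0]; exact he0)
    set F : Finset V := (((NN G a).filter (fun y => y ∉ T)) ∪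
      ((S.filter (fun e => a ∈ e)).image c)) ∪ (((NN G b).filter (fun y => y ∉ T)) ∪
      ((S.filter (fun e => b ∈ e)).image c)) with hF
    have hFc : F.card < (Tᶜ : Finset V).card := by
      have g1 := card_union_le (((NN G a).filter (fun y => y ∉ T)) ∪
        ((S.filter (fun e => a ∈ e)).image c)) (((NN G b).filter (fun y => y ∉ T)) ∪
        ((S.filter (fun e => b ∈ e)).image c))
      have g2 := card_union_le ((NN G a).filter (fun y => y ∉ T))
        ((S.filter (fun e => a ∈ e)).image c)
      have g3 := card_union_le ((NN G b).filter (fun y => y ∉ T))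
        ((S.filter (fun e => b ∈ e)).image c)
      have g4 : ((S.filter (fun e => a ∈ e)).image c).card ≤ _ := card_image_le
      have g5 : ((S.filter (fun e => b ∈ e)).image c).card ≤ _ := card_image_le
      rw [← hF] at g1
      omega
    obtain ⟨m, hmT, hmF⟩ := Finset.exists_mem_notMem_of_card_lt_card hFc
    rw [mem_compl] at hmT
    simp only [hF, mem_union, mem_filter, mem_NN, mem_image, not_or, not_and, not_not,
      not_exists] at hmF
    obtain ⟨⟨m1, m2⟩, m3, m4⟩ := hmF
    have ma : G.Adj a m := by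
      by_contra h
      exact hmT (m1 ((SimpleGraph.compl_adj G a m).2 ⟨by rintro rfl; exact hmT ha, h⟩))
    have mb : G.Adj b m := by
      by_contra h
      exact hmT (m3 ((SimpleGraph.compl_adj G b m).2 ⟨by rintro rfl; exact hmT hb, h⟩))
    have hne : ∀ e ∈ S, e ≠ e0 := by
      rintro e he rfl
      exact he0 he
    have hup : ∀ e ∈ S, Function.update c e0 m e = c e := fun e he =>
      Function.update_of_ne (hne e he) _ _
    have hup0 : Function.update c e0 m e0 = m := Function.update_self _ _ _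
    have hkey : ∀ e ∈ S, ∀ v, v ∈ e0 → v ∈ e → m ≠ c e := by
      intro e he v hv0 hve
      rw [hab0, Sym2.mem_iff] at hv0
      rcases hv0 with rfl | rfl
      · exact fun h => m2 e ⟨he, hve⟩ h.symm
      · exact fun h => m4 e ⟨he, hve⟩ h.symm
    refine ⟨Function.update c e0 m, ?_, ?_⟩
    · intro e he
      rcases mem_insert.1 he with rfl | he
      · rw [hup0]
        refine ⟨hmT, ?_⟩
        intro v hv
        rw [hab0, Sym2.mem_iff] at hv
        rcases hv with rfl | rfl
        · exact ma
        · exact mb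
      · rw [hup e he]
        exact hc1 e he
    · intro e he e' he' hee v hv hv'
      rcases mem_insert.1 he with h1 | h1
      · rcases mem_insert.1 he' with h2 | h2
        · exact absurd (h1.trans h2.symm) hee
        · rw [h1] at hv ⊢
          rw [hup0, hup e' h2]
          exact hkey e' h2 v hv hv'
      · rcases mem_insert.1 he' with h2 | h2
        · rw [h2] at hv' ⊢
          rw [hup0, hup e h1]
          exact (hkey e h1 v hv' hv).symm
        · rw [hup e h1, hup e' h2]
          exact hc2 e h1 e' h2 hee v hv hv'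

open Classical in
/-- If `t` vertices have at most `D` non-neighbours each and `t + 2 D ≤ n + 1`, then there is a
strong immersion of `K_t`. -/
theorem imm_of_low {V : Type} [Fintype V] (G : SimpleGraph V) (D t : ℕ)
    (L : Finset V) (hL : ∀ x ∈ L, Pool.Agent.W292.RG.ndeg G x ≤ D) (hLc : t ≤ L.card)
    (ht : t + 2 * D ≤ Fintype.card V + 1) :
    ShortImm G t := by
  obtain ⟨T, hTL, hT⟩ := Finset.exists_subset_card_eq (s := L) (n := t) hLc
  have htn : t ≤ Fintype.card V := by rw [← hT]; exact card_le_univ _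
  have hD' : ∀ x ∈ T, (NN G x).card ≤ D := fun x hx => by rw [card_NN]; exact hL x (hTL hx)
  have hTc : (Tᶜ : Finset V).card + t = Fintype.card V := by
    rw [card_compl, hT]
    omega
  set S : Finset (Sym2 V) := univ.filter
    (fun e => ∃ a b, e = s(a, b) ∧ a ∈ T ∧ b ∈ T ∧ Gᶜ.Adj a b) with hS
  obtain ⟨c, hc1, hc2⟩ := colour G T D hD' (by omega) S
    (fun e he => (mem_filter.1 he).2)
  let e0 := (T.equivFinOfCardEq hT).symm
  let f : Fin t ↪ V := ⟨fun i => (e0 i).1, fun i j h => e0.injective (Subtype.ext h)⟩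
  have hfT : ∀ i, f i ∈ T := fun i => (e0 i).2
  have hfS : ∀ i j : Fin t, i ≠ j → ¬ G.Adj (f i) (f j) → s(f i, f j) ∈ S := by
    intro i j hij h
    rw [hS, mem_filter]
    refine ⟨mem_univ _, f i, f j, rfl, hfT i, hfT j, ?_⟩
    rw [SimpleGraph.compl_adj]
    exact ⟨fun h' => hij (f.injective h'), h⟩
  have hw : ∀ i j : Fin t, ∃ w : G.Walk (f i) (f j), i ≠ j → w.IsPath ∧ w.length ≤ 2 ∧
      (∀ x ∈ w.support, x = f i ∨ x = f j ∨ x ∉ T) ∧
      (∀ e ∈ w.edges, (e = s(f i, f j)) ∨ (¬ G.Adj (f i) (f j) ∧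
        ∃ v, (v = f i ∨ v = f j) ∧ e = s(v, c s(f i, f j)))) := by
    intro i j
    by_cases hij : i = j
    · subst hij
      exact ⟨SimpleGraph.Walk.nil, fun h => absurd rfl h⟩
    by_cases hadj : G.Adj (f i) (f j)
    · refine ⟨SimpleGraph.Walk.cons hadj SimpleGraph.Walk.nil, fun _ => ⟨?_, ?_, ?_, ?_⟩⟩
      · rw [SimpleGraph.Walk.cons_isPath_iff]
        refine ⟨SimpleGraph.Walk.IsPath.nil, ?_⟩
        simp [hadj.ne]
      · simp
      · intro x hx
        simp only [SimpleGraph.Walk.support_cons, SimpleGraph.Walk.support_nil, List.mem_cons,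
          List.not_mem_nil, or_false] at hx
        tauto
      · intro e he
        simp only [SimpleGraph.Walk.edges_cons, SimpleGraph.Walk.edges_nil, List.mem_cons,
          List.not_mem_nil, or_false] at he
        exact Or.inl he
    · have hmem := hfS i j hij hadj
      obtain ⟨g1, g2⟩ := hc1 _ hmem
      have ga : G.Adj (f i) (c s(f i, f j)) := g2 _ (Sym2.mem_mk_left _ _)
      have gb : G.Adj (c s(f i, f j)) (f j) := (g2 _ (Sym2.mem_mk_right _ _)).symm
      refine ⟨SimpleGraph.Walk.cons ga (SimpleGraph.Walk.cons gb SimpleGraph.Walk.nil),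
        fun _ => ⟨?_, ?_, ?_, ?_⟩⟩
      · rw [SimpleGraph.Walk.cons_isPath_iff, SimpleGraph.Walk.cons_isPath_iff]
        refine ⟨⟨SimpleGraph.Walk.IsPath.nil, ?_⟩, ?_⟩
        · simp [gb.ne]
        · simp only [SimpleGraph.Walk.support_cons, SimpleGraph.Walk.support_nil, List.mem_cons,
            List.not_mem_nil, or_false, not_or]
          exact ⟨ga.ne, fun h => hij (f.injective h)⟩
      · simp
      · intro x hx
        simp only [SimpleGraph.Walk.support_cons, SimpleGraph.Walk.support_nil, List.mem_cons,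
          List.not_mem_nil, or_false] at hx
        rcases hx with rfl | rfl | rfl
        · left; rfl
        · right; right; exact g1
        · right; left; rfl
      · intro e he
        simp only [SimpleGraph.Walk.edges_cons, SimpleGraph.Walk.edges_nil, List.mem_cons,
          List.not_mem_nil, or_false] at he
        right
        refine ⟨hadj, ?_⟩
        rcases he with rfl | rfl
        · exact ⟨f i, Or.inl rfl, rfl⟩
        · exact ⟨f j, Or.inr rfl, Sym2.eq_swap⟩
  choose p hp using hw
  refine ⟨f, p, ?_, ?_⟩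
  · intro i j hij
    obtain ⟨q1, q2, q3, _⟩ := hp i j hij.ne
    refine ⟨q1, q2, ?_⟩
    intro x hx
    rcases q3 x hx with h | h | h
    · exact Or.inl h
    · exact Or.inr (Or.inl h)
    · refine Or.inr (Or.inr ?_)
      rintro k rfl
      exact h (hfT k)
  · intro i j k l hij hkl hne e he he'
    have hpair : s(f i, f j) ≠ s(f k, f l) := by
      intro h
      rw [Sym2.eq_iff] at h
      rcases h with ⟨h1, h2⟩ | ⟨h1, h2⟩
      · have e1 := f.injective h1
        have e2 := f.injective h2
        rcases hne with h | h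
        · exact h e1
        · exact h e2
      · have e1 := f.injective h1
        have e2 := f.injective h2
        subst e1
        subst e2
        exact absurd (hij.trans hkl) (lt_irrefl _)
    have r1 := (hp i j hij.ne).2.2.2 e he
    have r2 := (hp k l hkl.ne).2.2.2 e he'
    rcases r1 with r1 | ⟨a1, v, hv, r1⟩
    · rcases r2 with r2 | ⟨a2, v', hv', r2⟩
      · exact hpair (r1.symm.trans r2)
      · have g1 := (hc1 _ (hfS k l hkl.ne a2)).1
        rw [r1] at r2
        rw [Sym2.eq_iff] at r2
        rcases r2 with ⟨_, h⟩ | ⟨h, _⟩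
        · apply g1; rw [← h]; exact hfT j
        · apply g1; rw [← h]; exact hfT i
    · have g1 := (hc1 _ (hfS i j hij.ne a1)).1
      rcases r2 with r2 | ⟨a2, v', hv', r2⟩
      · rw [r2] at r1
        rw [Sym2.eq_iff] at r1
        rcases r1 with ⟨_, h⟩ | ⟨h, _⟩
        · apply g1; rw [← h]; exact hfT l
        · apply g1; rw [← h]; exact hfT k
      · rw [r1, Sym2.eq_iff] at r2
        have hvT : v ∈ T := by
          rcases hv with rfl | rfl
          · exact hfT i
          · exact hfT j
        have hg2 := (hc1 _ (hfS k l hkl.ne a2)).1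
        rcases r2 with ⟨h, h'⟩ | ⟨h, _⟩
        · refine hc2 _ (hfS i j hij.ne a1) _ (hfS k l hkl.ne a2) hpair v ?_ ?_ h'
          · rw [Sym2.mem_iff]; exact hv
          · rw [Sym2.mem_iff, h]; exact hv'
        · apply hg2
          rw [← h]
          exact hvT

/-- Every graph on `n` vertices in which every vertex has at most `D` non-neighbours has a strong
immersion of `K_{n+1-2D}`. -/
theorem imm_of_card {V : Type} [Fintype V] (G : SimpleGraph V) (D t : ℕ) (h1 : 1 ≤ D)
    (hD : ∀ x, Pool.Agent.W292.RG.ndeg G x ≤ D) (ht : t + 2 * D ≤ Fintype.card V + 1) :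
    ShortImm G t :=
  imm_of_low G D t univ (fun x _ => hD x) (by rw [card_univ]; omega) ht

end Pool.Agent.TH446.IM
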