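import Pool.Agent.TH446.IM.Imm

/-! The immersion conjecture of Lescure and Meyniel for graphs in which every vertex has few
non-neighbours. -/

set_option autoImplicit false

namespace Pool.Agent.TH446.IM

open Finset Pool.Agent.W212.EFF TH481.DM

open Classical in
/-- Disjoint non-adjacent pairs. -/
theorem pairs_off {V : Type} [Fintype V] (G : SimpleGraph V) (D : ℕ)
    (hD : ∀ x, (NN G x).card ≤ D) (N : Finset V) (hN : ∀ v ∈ N, ∃ w, Gᶜ.Adj v w) :
    ∀ s : ℕ, 2 * s * (D + 1) < N.card + 2 * (D + 1) →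
      ∃ C : Finset V, C.card = 2 * s ∧ Y (Ind G) C ≤ s := by
  intro s
  induction s with
  | zero =>
    intro _
    exact ⟨∅, by simp, by rw [Y_empty]⟩
  | succ s ih =>
    intro hs
    have hs' : 2 * s * (D + 1) < N.card := by
      have : 2 * (s + 1) * (D + 1) = 2 * s * (D + 1) + 2 * (D + 1) := by ring
      omega
    obtain ⟨C, hC1, hC2⟩ := ih (by omega)
    have hB : (C ∪ C.biUnion (NN G)).card < N.card := by
      have g1 := card_union_le C (C.biUnion (NN G))
      have g2 : (C.biUnion (NN G)).card ≤ C.card * D :=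
        card_biUnion_le_card_mul _ _ _ (fun x _ => hD x)
      have g3 : 2 * s + 2 * s * D = 2 * s * (D + 1) := by ring
      rw [hC1] at g1 g2
      omega
    obtain ⟨a, haN, haB⟩ := Finset.exists_mem_notMem_of_card_lt_card hB
    rw [mem_union, not_or, mem_biUnion] at haB
    obtain ⟨w, hw⟩ := hN a haN
    have hwC : w ∉ C := by
      intro h
      exact haB.2 ⟨w, h, (mem_NN G w a).2 hw.symm⟩
    refine ⟨{a, w} ∪ C, ?_, ?_⟩
    · rw [card_union_of_disjoint, card_pair hw.ne, hC1]
      · ring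
      · rw [Finset.disjoint_left]
        intro x hx hxC
        rw [mem_insert, mem_singleton] at hx
        rcases hx with rfl | rfl
        · exact haB.1 hxC
        · exact hwC hxC
    · have h1 := Y_union_le (ind_cpx G) {a, w} C
      have h2 : Y (Ind G) {a, w} ≤ 1 := by
        apply Y_le
        apply Cov.face
        rw [ind_pair]
        exact ((SimpleGraph.compl_adj G a w).1 hw).2
      omega

open Classical in
theorem lm_many {V : Type} [Fintype V] (G : SimpleGraph V) (D : ℕ) (h1 : 1 ≤ D)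
    (hD : ∀ x, Pool.Agent.W292.RG.ndeg G x ≤ D)
    (hm : 4 * D ^ 2 ≤ (Pool.Agent.W292.RG.nondom G).ncard) (k : ℕ) (hk : ¬ G.Colorable k) :
    ShortImm G (k + 1) := by
  have hD' : ∀ x, (NN G x).card ≤ D := fun x => by rw [card_NN]; exact hD x
  have hk' := lt_Y_univ G k hk
  have hN : ∀ v ∈ (Pool.Agent.W292.RG.nondom G).toFinset, ∃ w, Gᶜ.Adj v w := by
    intro v hv
    rw [Set.mem_toFinset] at hv
    obtain ⟨w, hw⟩ := hv
    exact ⟨w, (SimpleGraph.compl_adj G v w).2 hw⟩
  have hc : (Pool.Agent.W292.RG.nondom G).toFinset.card =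
      (Pool.Agent.W292.RG.nondom G).ncard := by
    rw [← Set.ncard_eq_toFinset_card']
  obtain ⟨C, hC1, hC2⟩ := pairs_off G D hD' _ hN (2 * D - 1) (by
    rw [hc]
    obtain ⟨d, rfl⟩ := Nat.exists_eq_add_of_le h1
    have e1 : 2 * (1 + d) - 1 = 2 * d + 1 := by omega
    rw [e1]
    nlinarith)
  have h2 : Y (Ind G) (univ : Finset V) ≤ Y (Ind G) C + Y (Ind G) Cᶜ := by
    have := Y_union_le (ind_cpx G) C Cᶜ
    rwa [Finset.union_compl] at this
  have h3 := Y_le_card (ind_cpx G) Cᶜ
  have h4 : C.card + (Cᶜ : Finset V).card = Fintype.card V := Finset.card_add_card_compl C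
  exact imm_of_card G D (k + 1) h1 hD (by omega)

open Classical in
theorem crit_of_col {V : Type} [Fintype V] (G : SimpleGraph V) (k : ℕ)
    (hcol : ∀ v, (G.induce {v}ᶜ).Colorable k) (hk : ¬ G.Colorable k) :
    ∀ v, Y (Ind G) ((univ : Finset V).erase v) < Y (Ind G) (univ : Finset V) := by
  have hk' := lt_Y_univ G k hk
  intro v
  refine lt_of_le_of_lt ?_ hk'
  apply Y_le
  rw [cov_iff, ← colorable_induce_iff]
  have : (((univ : Finset V).erase v : Finset V) : Set V) = {v}ᶜ := by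
    ext w; simp
  rw [this]
  exact hcol v

open Classical in
theorem lm_crit {V : Type} [Fintype V] (G : SimpleGraph V) (D : ℕ) (h1 : 1 ≤ D)
    (hD : ∀ x, Pool.Agent.W292.RG.ndeg G x ≤ D)
    (hm : 8 * D ≤ (Pool.Agent.W292.RG.nondom G).ncard + 4) (k : ℕ)
    (hcol : ∀ v, (G.induce {v}ᶜ).Colorable k) (hk : ¬ G.Colorable k) :
    ShortImm G (k + 1) := by
  have hk' := lt_Y_univ G k hk
  have hHadj : ∀ u v, Gᶜ.Adj u v ↔ u ≠ v ∧ ¬ G.Adj u v := fun u v => by
    rw [SimpleGraph.compl_adj]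
  obtain ⟨S, hS1, hS2, hS3⟩ := Pool.Agent.TH446.HN.Crit.reps G Gᶜ hHadj (crit_of_col G k hcol hk)
  have hrl := Pool.Agent.TH446.HN.Crit.rest_large Gᶜ S hS1
    (Pool.Agent.W292.RG.nondom G).toFinset (by
      intro v hv
      rw [Set.mem_toFinset] at hv
      obtain ⟨w, hw⟩ := hv
      exact ⟨w, (SimpleGraph.compl_adj G v w).2 hw⟩)
  have hc : (Pool.Agent.W292.RG.nondom G).toFinset.card =
      (Pool.Agent.W292.RG.nondom G).ncard := by
    rw [← Set.ncard_eq_toFinset_card']
  have h4 : S.card + (Sᶜ : Finset V).card = Fintype.card V := Finset.card_add_card_compl S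
  exact imm_of_card G D (k + 1) h1 hD (by omega)

open Classical in
theorem lm_conn {V : Type} [Fintype V] (G : SimpleGraph V) (D : ℕ) (L : Finset V)
    (hL : ∀ x ∈ L, Pool.Agent.W292.RG.ndeg G x ≤ D) (hLc : Fintype.card V + 1 ≤ 2 * L.card)
    (hconn : Gᶜ.Connected) (hm : 4 * D ≤ Fintype.card V + 1) (k : ℕ)
    (hcol : ∀ v, (G.induce {v}ᶜ).Colorable k) (hk : ¬ G.Colorable k) :
    ShortImm G (k + 1) := by
  have hk' := lt_Y_univ G k hk
  have hHadj : ∀ u v, Gᶜ.Adj u v ↔ u ≠ v ∧ ¬ G.Adj u v := fun u v => by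
    rw [SimpleGraph.compl_adj]
  obtain ⟨a⟩ := hconn.nonempty
  have huniv : comp Gᶜ a = univ := by
    ext w
    simp only [comp, mem_filter, mem_univ, true_and, iff_true]
    exact hconn.preconnected a w
  have hg := comp_gallai G Gᶜ hHadj (crit_of_col G k hcol hk) a
  rw [huniv, card_univ] at hg
  exact imm_of_low G D (k + 1) L hL (by omega) (by omega)

end Pool.Agent.TH446.IM
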