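import Pool.Agent.TH446.IM.Imm2
import Pool.Agent.TH446.HN.Crit2

/-! Smallest counterexamples to the Lescure–Meyniel conjecture. -/

set_option autoImplicit false

namespace Pool.Agent.TH446.IM

open Finset Pool.Agent.W212.EFF TH481.DM

/-- Weak immersion of `K_r`. -/
def WImm {V : Type} (G : SimpleGraph V) (r : ℕ) : Prop :=
  ∃ f : Fin r ↪ V, ∃ p : ∀ i j : Fin r, G.Walk (f i) (f j),
    (∀ i j : Fin r, i < j → (p i j).IsPath) ∧
    ∀ i j k l : Fin r, i < j → k < l → (i ≠ k ∨ j ≠ l) →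
      ∀ e ∈ (p i j).edges, e ∉ (p k l).edges

theorem ShortImm.wimm {V : Type} {G : SimpleGraph V} {r : ℕ} (h : ShortImm G r) : WImm G r := by
  obtain ⟨f, p, h1, h2⟩ := h
  exact ⟨f, p, fun i j hij => (h1 i j hij).1, h2⟩

/-- Weak immersion of a complete graph with branch vertices indexed by `ι`, inside `U`. -/
def GI {V : Type} (G : SimpleGraph V) (U : Set V) (ι : Type) : Prop :=
  ∃ f : ι → V, Function.Injective f ∧ (∀ i, f i ∈ U) ∧ ∃ p : ∀ i j : ι, G.Walk (f i) (f j),
    (∀ i j, i ≠ j → (p i j).IsPath ∧ ∀ x ∈ (p i j).support, x ∈ U) ∧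
    ∀ i j k l, i ≠ j → k ≠ l → s(i, j) ≠ s(k, l) → ∀ e ∈ (p i j).edges, e ∉ (p k l).edges

theorem gi_of_imm {V : Type} (G : SimpleGraph V) (U : Set V) (r : ℕ)
    (h : WImm (G.induce U) r) : GI G U (Fin r) := by
  obtain ⟨f, p, hp, hd⟩ := h
  let φ : G.induce U →g G := ⟨Subtype.val, fun {a b} h => by simpa using h⟩
  have hφ : Function.Injective φ := Subtype.val_injective
  have key : ∀ i j : Fin r, ∃ w : G.Walk (f i).1 (f j).1, i ≠ j → w.IsPath ∧
      (∀ x ∈ w.support, x ∈ U) ∧ ∀ e ∈ w.edges, ∃ e', Sym2.map φ e' = e ∧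
        ((i < j ∧ e' ∈ (p i j).edges) ∨ (j < i ∧ e' ∈ (p j i).edges)) := by
    intro i j
    rcases lt_trichotomy i j with h | h | h
    · refine ⟨(p i j).map φ, fun _ => ⟨?_, ?_, ?_⟩⟩
      · exact (hp i j h).map hφ
      · intro x hx
        rw [SimpleGraph.Walk.support_map, List.mem_map] at hx
        obtain ⟨y, _, rfl⟩ := hx
        exact y.2
      · intro e he
        rw [SimpleGraph.Walk.edges_map, List.mem_map] at he
        obtain ⟨e', he', rfl⟩ := he
        exact ⟨e', rfl, Or.inl ⟨h, he'⟩⟩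
    · subst h
      exact ⟨SimpleGraph.Walk.nil, fun h => absurd rfl h⟩
    · refine ⟨((p j i).map φ).reverse, fun _ => ⟨?_, ?_, ?_⟩⟩
      · exact ((hp j i h).map hφ).reverse
      · intro x hx
        rw [SimpleGraph.Walk.support_reverse, List.mem_reverse, SimpleGraph.Walk.support_map,
          List.mem_map] at hx
        obtain ⟨y, _, rfl⟩ := hx
        exact y.2
      · intro e he
        rw [SimpleGraph.Walk.edges_reverse, List.mem_reverse, SimpleGraph.Walk.edges_map,
          List.mem_map] at he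
        obtain ⟨e', he', rfl⟩ := he
        exact ⟨e', rfl, Or.inr ⟨h, he'⟩⟩
  choose q hq using key
  refine ⟨fun i => (f i).1, fun i j h => f.injective (Subtype.ext h), fun i => (f i).2, q,
    fun i j hij => ⟨(hq i j hij).1, (hq i j hij).2.1⟩, ?_⟩
  intro i j k l hij hkl hne e he he'
  obtain ⟨e1, h1, h2⟩ := (hq i j hij).2.2 e he
  obtain ⟨e2, h3, h4⟩ := (hq k l hkl).2.2 e he'
  have h12 : e1 = e2 := Sym2.map.injective hφ (h1.trans h3.symm)
  subst h12
  rcases h2 with ⟨g1, g2⟩ | ⟨g1, g2⟩ <;> rcases h4 with ⟨g3, g4⟩ | ⟨g3, g4⟩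
  · refine hd i j k l g1 g3 ?_ e1 g2 g4
    by_contra hc
    push Not at hc
    exact hne (by rw [hc.1, hc.2])
  · refine hd i j l k g1 g3 ?_ e1 g2 g4
    by_contra hc
    push Not at hc
    exact hne (by rw [hc.1, hc.2]; exact Sym2.eq_swap)
  · refine hd j i k l g1 g3 ?_ e1 g2 g4
    by_contra hc
    push Not at hc
    exact hne (by rw [hc.1, hc.2]; exact Sym2.eq_swap)
  · refine hd j i l k g1 g3 ?_ e1 g2 g4
    by_contra hc
    push Not at hc
    exact hne (by rw [hc.1, hc.2])

theorem gi_join {V : Type} (G : SimpleGraph V) (U W : Set V) (ι κ : Type) (h1 : GI G U ι)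
    (h2 : GI G W κ) (hj : ∀ x ∈ U, ∀ y ∈ W, G.Adj x y) : GI G (U ∪ W) (ι ⊕ κ) := by
  obtain ⟨f, hfi, hfU, p, hp, hpd⟩ := h1
  obtain ⟨g, hgi, hgW, q, hq, hqd⟩ := h2
  have hdis : ∀ x, x ∈ U → x ∈ W → False := fun x hx hy => G.irrefl (hj x hx x hy)
  have hF : Function.Injective (Sum.elim f g) := by
    rintro (i | i) (j | j) h
    · exact congrArg Sum.inl (hfi h)
    · simp only [Sum.elim_inl, Sum.elim_inr] at h
      exact (hdis _ (hfU i) (h ▸ hgW j)).elim
    · simp only [Sum.elim_inl, Sum.elim_inr] at h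
      exact (hdis _ (hfU j) (h ▸ hgW i)).elim
    · exact congrArg Sum.inr (hgi h)
  have hpath1 : ∀ {a b : V} (h : G.Adj a b),
      (SimpleGraph.Walk.cons h SimpleGraph.Walk.nil : G.Walk a b).IsPath := by
    intro a b h
    rw [SimpleGraph.Walk.cons_isPath_iff]
    refine ⟨SimpleGraph.Walk.IsPath.nil, ?_⟩
    simp [h.ne]
  have key : ∀ x y : ι ⊕ κ, ∃ w : G.Walk (Sum.elim f g x) (Sum.elim f g y), x ≠ y → w.IsPath ∧
      (∀ z ∈ w.support, z ∈ U ∪ W) ∧ ∀ e ∈ w.edges,
      (∃ i j, x = Sum.inl i ∧ y = Sum.inl j ∧ i ≠ j ∧ e ∈ (p i j).edges) ∨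
      (∃ i j, x = Sum.inr i ∧ y = Sum.inr j ∧ i ≠ j ∧ e ∈ (q i j).edges) ∨
      (e = s(Sum.elim f g x, Sum.elim f g y) ∧ ∃ a ∈ U, ∃ b ∈ W, e = s(a, b)) := by
    rintro (i | i) (j | j)
    · refine ⟨p i j, fun hij => ?_⟩
      have hij' : i ≠ j := fun h => hij (by rw [h])
      exact ⟨(hp i j hij').1, fun z hz => Or.inl ((hp i j hij').2 z hz),
        fun e he => Or.inl ⟨i, j, rfl, rfl, hij', he⟩⟩
    · have hadj : G.Adj (f i) (g j) := hj _ (hfU i) _ (hgW j)
      refine ⟨SimpleGraph.Walk.cons hadj SimpleGraph.Walk.nil, fun _ => ⟨hpath1 hadj, ?_, ?_⟩⟩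
      · intro z hz
        have hz' : z ∈ (SimpleGraph.Walk.cons hadj SimpleGraph.Walk.nil :
          G.Walk (f i) (g j)).support := hz
        simp only [SimpleGraph.Walk.support_cons, SimpleGraph.Walk.support_nil, List.mem_cons,
          List.not_mem_nil, or_false] at hz'
        rcases hz' with rfl | rfl
        · exact Or.inl (hfU i)
        · exact Or.inr (hgW j)
      · intro e he
        have he2 : e ∈ (SimpleGraph.Walk.cons hadj SimpleGraph.Walk.nil :
          G.Walk (f i) (g j)).edges := he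
        simp only [SimpleGraph.Walk.edges_cons, SimpleGraph.Walk.edges_nil, List.mem_cons,
          List.not_mem_nil, or_false] at he2
        exact Or.inr (Or.inr ⟨he2, f i, hfU i, g j, hgW j, he2⟩)
    · have hadj : G.Adj (g i) (f j) := (hj _ (hfU j) _ (hgW i)).symm
      refine ⟨SimpleGraph.Walk.cons hadj SimpleGraph.Walk.nil, fun _ => ⟨hpath1 hadj, ?_, ?_⟩⟩
      · intro z hz
        have hz' : z ∈ (SimpleGraph.Walk.cons hadj SimpleGraph.Walk.nil :
          G.Walk (g i) (f j)).support := hz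
        simp only [SimpleGraph.Walk.support_cons, SimpleGraph.Walk.support_nil, List.mem_cons,
          List.not_mem_nil, or_false] at hz'
        rcases hz' with rfl | rfl
        · exact Or.inr (hgW i)
        · exact Or.inl (hfU j)
      · intro e he
        have he2 : e ∈ (SimpleGraph.Walk.cons hadj SimpleGraph.Walk.nil :
          G.Walk (g i) (f j)).edges := he
        simp only [SimpleGraph.Walk.edges_cons, SimpleGraph.Walk.edges_nil, List.mem_cons,
          List.not_mem_nil, or_false] at he2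
        exact Or.inr (Or.inr ⟨he2, f j, hfU j, g i, hgW i, he2.trans Sym2.eq_swap⟩)
    · refine ⟨q i j, fun hij => ?_⟩
      have hij' : i ≠ j := fun h => hij (by rw [h])
      exact ⟨(hq i j hij').1, fun z hz => Or.inr ((hq i j hij').2 z hz),
        fun e he => Or.inr (Or.inl ⟨i, j, rfl, rfl, hij', he⟩)⟩
  choose w hw using key
  have inU : ∀ i j, i ≠ j → ∀ a b, s(a, b) ∈ (p i j).edges → a ∈ U ∧ b ∈ U := by
    intro i j hij a b he
    exact ⟨(hp i j hij).2 _ ((p i j).fst_mem_support_of_mem_edges he),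
      (hp i j hij).2 _ ((p i j).snd_mem_support_of_mem_edges he)⟩
  have inW : ∀ i j, i ≠ j → ∀ a b, s(a, b) ∈ (q i j).edges → a ∈ W ∧ b ∈ W := by
    intro i j hij a b he
    exact ⟨(hq i j hij).2 _ ((q i j).fst_mem_support_of_mem_edges he),
      (hq i j hij).2 _ ((q i j).snd_mem_support_of_mem_edges he)⟩
  refine ⟨Sum.elim f g, hF, ?_, w, fun x y hxy => ⟨(hw x y hxy).1, (hw x y hxy).2.1⟩, ?_⟩
  · rintro (i | i)
    · exact Or.inl (hfU i)
    · exact Or.inr (hgW i)
  · intro x y z t hxy hzt hne e he he'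
    have r1 := (hw x y hxy).2.2 e he
    have r2 := (hw z t hzt).2.2 e he'
    rcases r1 with ⟨i, j, rfl, rfl, hij, r1⟩ | ⟨i, j, rfl, rfl, hij, r1⟩ | ⟨r1, a, ha, b, hb, r1'⟩
    · rcases r2 with ⟨k, l, rfl, rfl, hkl, r2⟩ | ⟨k, l, rfl, rfl, hkl, r2⟩ |
        ⟨r2, a, ha, b, hb, r2'⟩
      · refine hpd i j k l hij hkl ?_ e r1 r2
        intro h
        apply hne
        have := congrArg (Sym2.map (Sum.inl : ι → ι ⊕ κ)) h
        simpa using this
      · induction e using Sym2.ind with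
        | _ u v => exact hdis u (inU i j hij u v r1).1 (inW k l hkl u v r2).1
      · rw [r2'] at r1
        exact hdis b (inU i j hij a b r1).2 hb
    · rcases r2 with ⟨k, l, rfl, rfl, hkl, r2⟩ | ⟨k, l, rfl, rfl, hkl, r2⟩ |
        ⟨r2, a, ha, b, hb, r2'⟩
      · induction e using Sym2.ind with
        | _ u v => exact hdis u (inU k l hkl u v r2).1 (inW i j hij u v r1).1
      · refine hqd i j k l hij hkl ?_ e r1 r2
        intro h
        apply hne
        have := congrArg (Sym2.map (Sum.inr : κ → ι ⊕ κ)) h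
        simpa using this
      · rw [r2'] at r1
        exact hdis a ha (inW i j hij a b r1).1
    · rcases r2 with ⟨k, l, rfl, rfl, hkl, r2⟩ | ⟨k, l, rfl, rfl, hkl, r2⟩ |
        ⟨r2, a', ha', b', hb', r2'⟩
      · rw [r1'] at r2
        exact hdis b (inU k l hkl a b r2).2 hb
      · rw [r1'] at r2
        exact hdis a ha (inW k l hkl a b r2).1
      · apply hne
        have h : Sym2.map (Sum.elim f g) s(x, y) = Sym2.map (Sum.elim f g) s(z, t) := by
          simp only [Sym2.map_mk]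
          exact r1.symm.trans r2
        exact Sym2.map.injective hF h

theorem imm_of_gi {V : Type} (G : SimpleGraph V) (U : Set V) (ι : Type) [Fintype ι]
    (h : GI G U ι) (r : ℕ) (hr : r ≤ Fintype.card ι) : WImm G r := by
  obtain ⟨f, hfi, _, p, hp, hpd⟩ := h
  let e : Fin r ↪ ι := (Fin.castLEEmb hr).trans (Fintype.equivFin ι).symm.toEmbedding
  refine ⟨⟨fun i => f (e i), fun i j h => e.injective (hfi h)⟩, fun i j => p (e i) (e j), ?_, ?_⟩
  · intro i j hij
    exact (hp _ _ (fun h => hij.ne (e.injective h))).1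
  · intro i j k l hij hkl hne
    refine hpd _ _ _ _ (fun h => hij.ne (e.injective h)) (fun h => hkl.ne (e.injective h)) ?_
    intro h
    rw [Sym2.eq_iff] at h
    rcases h with ⟨h1, h2⟩ | ⟨h1, h2⟩
    · rcases hne with h | h
      · exact h (e.injective h1)
      · exact h (e.injective h2)
    · have e1 := e.injective h1
      have e2 := e.injective h2
      subst e1
      subst e2
      exact absurd (hij.trans hkl) (lt_irrefl _)

end Pool.Agent.TH446.IM
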