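import Pool.Agent.TH446.IM.Join

/-! Smallest counterexamples to the Lescure–Meyniel conjecture, and small counterexamples inside
counterexamples with few non-neighbours per vertex. -/

set_option autoImplicit false

namespace Pool.Agent.TH446.IM

open Finset Pool.Agent.W212.EFF TH481.DM

/-- The Lescure–Meyniel conjecture holds for `G`. -/
def LM {V : Type} (G : SimpleGraph V) : Prop := ∀ k : ℕ, ¬ G.Colorable k → WImm G (k + 1)

open Classical in
theorem lm_induce {V : Type} [Fintype V] (G : SimpleGraph V) (C : Finset V)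
    (h : LM (G.induce (C : Set V))) : GI G (C : Set V) (Fin (Y (Ind G) C)) := by
  rcases Nat.eq_zero_or_pos (Y (Ind G) C) with h0 | h0
  · rw [h0]
    exact ⟨fun i => i.elim0, fun i => i.elim0, fun i => i.elim0, fun i => i.elim0,
      fun i => i.elim0, fun i => i.elim0⟩
  · have h1 := h _ (not_colorable_induce G C h0)
    rw [Nat.sub_add_cancel h0] at h1
    exact gi_of_imm G _ _ h1

open Classical in
theorem min_lm {V : Type} [Fintype V] (G : SimpleGraph V) (h : ¬ LM G)
    (hmin : ∀ U : Set V, U ≠ Set.univ → LM (G.induce U)) (D : ℕ)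
    (h4 : 4 * D ≤ Fintype.card V + 1) :
    2 * {x | Pool.Agent.W292.RG.ndeg G x ≤ D}.ncard < Fintype.card V + 1 := by
  unfold LM at h
  push Not at h
  obtain ⟨k, hk, hn⟩ := h
  have hk' := lt_Y_univ G k hk
  have hHadj : ∀ u v, Gᶜ.Adj u v ↔ u ≠ v ∧ ¬ G.Adj u v := fun u v => by
    rw [SimpleGraph.compl_adj]
  have hcrit : ∀ v, Y (Ind G) ((univ : Finset V).erase v) < Y (Ind G) (univ : Finset V) := by
    intro v
    by_contra hcon
    have hcon := not_lt.1 hcon
    have hne : (((univ : Finset V).erase v : Finset V) : Set V) ≠ Set.univ := by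
      intro h
      have : v ∈ (((univ : Finset V).erase v : Finset V) : Set V) := by rw [h]; trivial
      simp at this
    have h3 := lm_induce G _ (hmin _ hne)
    exact hn (imm_of_gi G _ _ h3 (k + 1) (by rw [Fintype.card_fin]; omega))
  obtain ⟨a⟩ : Nonempty V := by
    by_contra hne
    rw [not_nonempty_iff] at hne
    exact hk ⟨SimpleGraph.Coloring.mk (fun v => (hne.false v).elim)
      (fun {v} => (hne.false v).elim)⟩
  have ha : a ∈ comp Gᶜ a := by
    simp only [comp, mem_filter, mem_univ, true_and]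
    exact SimpleGraph.Reachable.refl a
  have huniv : comp Gᶜ a = univ := by
    by_contra hne
    have hne1 : ((comp Gᶜ a : Finset V) : Set V) ≠ Set.univ := by
      intro h
      exact hne (Finset.coe_eq_univ.1 h)
    have hne2 : (((comp Gᶜ a)ᶜ : Finset V) : Set V) ≠ Set.univ := by
      intro h
      have : a ∈ (((comp Gᶜ a)ᶜ : Finset V) : Set V) := by rw [h]; trivial
      rw [mem_coe, mem_compl] at this
      exact this ha
    have g1 := lm_induce G _ (hmin _ hne1)
    have g2 := lm_induce G _ (hmin _ hne2)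
    have g3 := gi_join G _ _ _ _ g1 g2 (fun x hx y hy => comp_joined G Gᶜ hHadj a x
      (mem_coe.1 hx) y (mem_compl.1 (mem_coe.1 hy)))
    have g4 : Y (Ind G) (univ : Finset V) ≤ Y (Ind G) (comp Gᶜ a) + Y (Ind G) (comp Gᶜ a)ᶜ := by
      have := Y_union_le (ind_cpx G) (comp Gᶜ a) (comp Gᶜ a)ᶜ
      rwa [Finset.union_compl] at this
    exact hn (imm_of_gi G _ _ g3 (k + 1)
      (by rw [Fintype.card_sum, Fintype.card_fin, Fintype.card_fin]; omega))
  have hg := comp_gallai G Gᶜ hHadj hcrit a
  rw [huniv, card_univ] at hg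
  by_contra hcon
  have hc : ({x | Pool.Agent.W292.RG.ndeg G x ≤ D}.toFinset).card =
      {x | Pool.Agent.W292.RG.ndeg G x ≤ D}.ncard := by
    rw [← Set.ncard_eq_toFinset_card']
  exact hn (imm_of_low G D (k + 1) {x | Pool.Agent.W292.RG.ndeg G x ≤ D}.toFinset
    (fun x hx => by rw [Set.mem_toFinset] at hx; exact hx) (by omega) (by omega)).wimm

open Classical in
theorem sum_ndeg {V : Type} [Fintype V] (G : SimpleGraph V) :
    ∑ x, Pool.Agent.W292.RG.ndeg G x = 2 * (Gᶜ.edgeSet).ncard := by
  have h1 : (Gᶜ.edgeSet).ncard = Gᶜ.edgeFinset.card := by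
    rw [← SimpleGraph.coe_edgeFinset, Set.ncard_coe_finset]
  rw [h1, ← Gᶜ.sum_degrees_eq_twice_card_edges]
  refine Finset.sum_congr rfl (fun x _ => ?_)
  unfold Pool.Agent.W292.RG.ndeg SimpleGraph.degree
  rw [← Set.ncard_coe_finset]
  congr 1
  ext y
  simp

open Classical in
theorem min_edges {V : Type} [Fintype V] (G : SimpleGraph V)
    (h : ∀ D : ℕ, 4 * D ≤ Fintype.card V + 1 →
      2 * {x | Pool.Agent.W292.RG.ndeg G x ≤ D}.ncard < Fintype.card V + 1) :
    Fintype.card V * (Fintype.card V + 2) ≤ 16 * (Gᶜ.edgeSet).ncard := by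
  set n := Fintype.card V with hn
  set D := (n + 1) / 4 with hD
  have h1 := h D (by omega)
  set Lo : Finset V := univ.filter (fun x => Pool.Agent.W292.RG.ndeg G x ≤ D) with hLo
  set Hi : Finset V := univ.filter (fun x => ¬ Pool.Agent.W292.RG.ndeg G x ≤ D) with hHi
  have h2 : {x | Pool.Agent.W292.RG.ndeg G x ≤ D}.ncard = Lo.card := by
    rw [← Set.ncard_coe_finset]
    congr 1
    ext x
    simp [hLo]
  rw [h2] at h1
  have h3 : Lo.card + Hi.card = n := by
    rw [hLo, hHi, Finset.card_filter_add_card_filter_not, card_univ]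
  have h4 : Hi.card * (D + 1) ≤ ∑ x, Pool.Agent.W292.RG.ndeg G x := by
    calc Hi.card * (D + 1) = ∑ _x ∈ Hi, (D + 1) := by rw [sum_const, smul_eq_mul]
      _ ≤ ∑ x ∈ Hi, Pool.Agent.W292.RG.ndeg G x := by
          refine sum_le_sum (fun x hx => ?_)
          have := (mem_filter.1 hx).2
          omega
      _ ≤ ∑ x, Pool.Agent.W292.RG.ndeg G x := sum_le_sum_of_subset (subset_univ _)
  rw [sum_ndeg] at h4
  have h5 : n ≤ 2 * Hi.card := by omega
  have h6 : n + 2 ≤ 4 * (D + 1) := by omega
  calc n * (n + 2) ≤ (2 * Hi.card) * (4 * (D + 1)) := Nat.mul_le_mul h5 h6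
    _ = 8 * (Hi.card * (D + 1)) := by ring
    _ ≤ 8 * (2 * (Gᶜ.edgeSet).ncard) := Nat.mul_le_mul_left _ h4
    _ = 16 * (Gᶜ.edgeSet).ncard := by ring

theorem wimm_iso {V W : Type} (G : SimpleGraph V) (G' : SimpleGraph W) (φ : G ≃g G') (r : ℕ)
    (h : WImm G r) : WImm G' r := by
  obtain ⟨f, p, hp, hd⟩ := h
  have hφ : Function.Injective φ.toHom := φ.injective
  refine ⟨⟨fun i => φ.toHom (f i), fun i j h => f.injective (hφ h)⟩,
    fun i j => (p i j).map φ.toHom, fun i j hij => (hp i j hij).map hφ, ?_⟩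
  intro i j k l hij hkl hne e he he'
  rw [SimpleGraph.Walk.edges_map, List.mem_map] at he he'
  obtain ⟨e1, h1, rfl⟩ := he
  obtain ⟨e2, h2, h3⟩ := he'
  have := Sym2.map.injective hφ h3
  subst this
  exact hd i j k l hij hkl hne _ h1 h2

theorem lm_iso {V W : Type} (G : SimpleGraph V) (G' : SimpleGraph W) (φ : G ≃g G')
    (h : LM G) : LM G' := by
  intro j hj
  refine wimm_iso G G' φ _ (h j ?_)
  intro hc
  exact hj (SimpleGraph.Colorable.of_hom φ.symm.toHom hc)

theorem local_lm {V : Type} [Fintype V] (G : SimpleGraph V) (h : ¬ LM G) :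
    ∃ U : Set V, ¬ LM (G.induce U) ∧
      (∀ D : ℕ, 4 * D ≤ U.ncard + 1 →
        2 * {x : U | Pool.Agent.W292.RG.ndeg (G.induce U) x ≤ D}.ncard < U.ncard + 1) ∧
      U.ncard * (U.ncard + 2) ≤ 16 * ((G.induce U)ᶜ.edgeSet).ncard := by
  classical
  have key : ∀ n : ℕ, ∀ U : Set V, U.ncard = n → ¬ LM (G.induce U) →
      ∃ U' : Set V, ¬ LM (G.induce U') ∧
      (∀ D : ℕ, 4 * D ≤ U'.ncard + 1 →
        2 * {x : U' | Pool.Agent.W292.RG.ndeg (G.induce U') x ≤ D}.ncard < U'.ncard + 1) ∧
      U'.ncard * (U'.ncard + 2) ≤ 16 * ((G.induce U')ᶜ.edgeSet).ncard := by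
    intro n
    induction n using Nat.strong_induction_on with
    | _ n ih =>
      intro U hU hnot
      by_cases hex : ∃ X : Set U, X ≠ Set.univ ∧ ¬ LM ((G.induce U).induce X)
      · obtain ⟨X, hX, hXn⟩ := hex
        have hlt : (Subtype.val '' X : Set V).ncard < n := by
          rw [← hU]
          apply Set.ncard_lt_ncard _ (Set.toFinite _)
          rw [Set.ssubset_iff_subset_ne]
          refine ⟨?_, ?_⟩
          · rintro _ ⟨x, _, rfl⟩; exact x.2
          · intro heq
            apply hX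
            ext x
            simp only [Set.mem_univ, iff_true]
            have : x.1 ∈ Subtype.val '' X := by rw [heq]; exact x.2
            obtain ⟨y, hy, hyx⟩ := this
            rwa [Subtype.ext hyx] at hy
        refine ih _ hlt (Subtype.val '' X) rfl ?_
        intro hh
        exact hXn (lm_iso _ _ (Pool.Agent.TH446.HN.Crit.indIso G U X) hh)
      · push Not at hex
        have hc : Fintype.card U = U.ncard := by
          rw [← Nat.card_eq_fintype_card, Nat.card_coe_set_eq]
        have h1 := min_lm (G.induce U) hnot hex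
        have h2 := min_edges (G.induce U) h1
        rw [hc] at h1 h2
        exact ⟨U, hnot, h1, h2⟩
  refine key _ Set.univ rfl ?_
  intro hh
  exact h (lm_iso _ _ (SimpleGraph.induceUnivIso G) hh)

end Pool.Agent.TH446.IM
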